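import Pool.Agent.H.MP_5904a2_co.B

namespace Pool.Agent.Results.MP_5904a2_co.Full
open Pool.Agent.H.MP_5904a2_co

theorem result (k : ℝ) : ∃ (V : Type) (_ : Fintype V) (_ : DecidableEq V) (G : SimpleGraph V)
    (v : V), G.Connected ∧ k < (fp G v : ℝ) / fd G v := main k

end Pool.Agent.Results.MP_5904a2_co.Full
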